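import Pool.Agent.X321.BL.Two
set_option autoImplicit false

/-!
Beilinson's conjecture on regulators: a limit formula at two places. For the pencils `∏ x = λ ∏ M` of
Calabi-Yau hypersurfaces in products of projective spaces over a number field, where the `x` are the
homogeneous coordinates and the `M` are linear forms given by matrices of roots of unity which are
inverse to such matrices up to scalars, and for the symbol `α` of the coordinates and the symbol `β` of
the linear forms, the determinant of the regulators on a torus at a place `σ` and a torus at a place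
`τ` is asymptotic to `- (2 π) ^ (2 d) log |σ λ| log |τ λ|` if `|σ λ| → 0` and `|τ λ| → ∞`.
-/

namespace Pool.Agent.Results.MP_15b3df_nt.TwoPlaceLimit

open Pool.Agent.TH826.MK (KQ Unramified Torus)

open Pool.Agent.Y797.TP

open NumberField (InfinitePlace)

section defs

variable {K : Type*} [Field K] {s d : ℕ}

/-- The class has unramified images in `K_{d+1}^M ⊗ ℚ` of all fields `L` with a homomorphism from the
coordinate ring of the open part to `L`. -/
def UnramifiedImages.{u, v} {K : Type u} [Field K] {A : Pencil K s d} {lam : K}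
    (x : KQ (A.Open lam) (d + 1)) : Prop :=
  ∀ (L : Type v) [Field L] (f : A.Open lam →+* L), KQ.map (d + 1) f x ∈ Unramified L (d + 1)

/-- The points of the torus are points over the embedding `σ`. -/
def Over {A : Pencil K s d} {lam : K} (Γ : Torus (A.Open lam) d) (σ : K →+* ℂ) : Prop :=
  ∀ θ (x : K), Γ.e θ (A.toO lam (MvPolynomial.C x)) = σ x

/-- The regulator of the symbol of the coordinates. -/
noncomputable def regA {A : Pencil K s d} {lam : K} (Γ : Torus (A.Open lam) d) : ℝ :=
  Γ.reg (A.alpha lam)

/-- The regulator of the symbol of the linear forms. -/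
noncomputable def regB {A : Pencil K s d} {lam : K} (Γ : Torus (A.Open lam) d) : ℝ :=
  Γ.reg (A.beta lam)

/-- There are a torus in the complex points over `σ` and a torus in the complex points over `τ` such
that the determinant of the regulators of the two symbols on the two tori, divided by
`(2 π) ^ (2 d) log |σ λ| log |τ λ|`, differs from `-1` by at most `δ`. -/
def AlmostLimit (A : Pencil K s d) (lam : K) (σ τ : K →+* ℂ) (δ : ℝ) : Prop :=
  ∃ Γ Δ : Torus (A.Open lam) d, Over Γ σ ∧ Over Δ τ ∧
    |(regA Γ * regB Δ - regB Γ * regA Δ) /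
      ((2 * Real.pi) ^ (2 * d) * Real.log ‖σ lam‖ * Real.log ‖τ lam‖) - (-1)| ≤ δ

/-- The complex points (over `σ`) of the hypersurface on which no coordinate vanishes are smooth. -/
def SmoothOpen (A : Pencil K s d) (lam : K) (σ : K →+* ℂ) : Prop :=
  ∀ z : Fin (d + 1) → ℂ, (∀ i, z i ≠ 0) → Pencil.SmoothAt (MvPolynomial.map σ (A.eqn lam)) z

/-- `λ` is a unit of the ring of integers. -/
def IsUnitInt (lam : K) : Prop := IsIntegral ℤ lam ∧ IsIntegral ℤ lam⁻¹ ∧ lam ≠ 0

end defs

/-- Let `K` be a number field, and let `A` be a pencil over `K`: homogeneous coordinates `x_e` of a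
product of `s + 1` projective spaces of total dimension `d + 1`, and two square matrices `H` and `G`,
whose entries `H_{e,f}` and `G_{e,f}` are roots of unity if `e` and `f` belong to the same factor and
`0` otherwise, such that `G^t H` is a diagonal matrix, whose entries are `c_j ≠ 0` on the factor `j`.
Let `M_e = ∑_f H_{e,f} x_f`, and let `X_λ` be the hypersurface `∏_e x_e = λ ∏_e M_e` (an
anticanonical hypersurface, of dimension `d`).

If `λ` is a unit of the ring of integers of `K`, the symbol `α` of the quotients
`x_{inr i} / x_{inl j}` and the symbol `β` of the quotients `M_{inr i} / M_{inl j}` (`i = 0, ..., d`,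
`j` the factor of `inr i`) have unramified images in `K_{d+1}^M ⊗ ℚ` of all fields `L` with a
homomorphism from the coordinate ring of the open part of `X_λ`, on which no coordinate vanishes,
to `L` (for example the function fields of the components of `X_λ`).

For all embeddings `σ` and `τ` of `K` and all `δ > 0` there is `ε > 0` such that for all `λ ≠ 0` with
`|σ λ| < ε` and `|τ λ| > 1 / ε` there are a torus in the complex points of the open part over `σ` and
a torus in the complex points of the open part over `τ` such that the determinant of the regulators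
of `α` and `β` on the two tori, divided by `(2 π) ^ (2 d) log |σ λ| log |τ λ|`, differs from `-1` by at
most `δ`. If `σ` and `τ` define different places, infinitely many units `λ` satisfy the conditions.

For all embeddings `σ` there is `ε > 0` such that for all `λ ≠ 0` with `|σ λ| < ε` the open part is
smooth (over `σ`), and `X_λ` is smooth (over `σ`) if there is no point of the product of the
projective spaces with two vanishing coordinates and two vanishing forms `M_e`.

Example: all this holds for the hypersurfaces `∏_j x_j = λ ∏_j (1 + x_j) (1 - x_j)` in the product of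
`d + 1` projective lines (over every number field), which satisfy the last condition if `d ≤ 2`
(elliptic curves, K3 surfaces). -/
theorem result.{u, v} (K : Type u) [Field K] [NumberField K] :
    (∀ (s d : ℕ) (A : Pencil K s d), A.Valid →
      (∀ lam : K, IsUnitInt lam → UnramifiedImages.{u, v} (A.alpha lam) ∧
        UnramifiedImages.{u, v} (A.beta lam)) ∧
      (∀ (σ τ : K →+* ℂ) (δ : ℝ), 0 < δ → ∃ ε : ℝ, 0 < ε ∧ ε < 1 ∧
        (∀ lam : K, lam ≠ 0 → ‖σ lam‖ < ε → ε⁻¹ < ‖τ lam‖ → AlmostLimit A lam σ τ δ) ∧
        (InfinitePlace.mk σ ≠ InfinitePlace.mk τ →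
          {lam : K | IsUnitInt lam ∧ ‖σ lam‖ < ε ∧ ε⁻¹ < ‖τ lam‖}.Infinite)) ∧
      ∀ σ : K →+* ℂ, ∃ ε : ℝ, 0 < ε ∧ ∀ lam : K, lam ≠ 0 → ‖σ lam‖ < ε →
        SmoothOpen A lam σ ∧ (A.Transversal σ → A.SmoothProj lam σ)) ∧
    ∀ d : ℕ, (signPencil K d).Valid ∧ (d ≤ 2 → ∀ σ : K →+* ℂ, (signPencil K d).Transversal σ) := by
  refine ⟨fun s d A hA => ⟨fun lam hlam =>
    ⟨fun L _ f => (both_unramified f hA hlam.1 hlam.2.1 hlam.2.2).1,
      fun L _ f => (both_unramified f hA hlam.1 hlam.2.1 hlam.2.2).2⟩, fun σ τ δ hδ => ?_,
        fun σ => ?_⟩, fun d => ⟨signPencil_valid K d, fun hd σ => signPencil_transversal hd σ⟩⟩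
  · have hpi : (0 : ℝ) < (2 * Real.pi) ^ (2 * d) := by positivity
    obtain ⟨ε0, hε0, h⟩ := Pool.Agent.X321.BL.exists_two_limit hA σ τ
      (ε := δ * (2 * Real.pi) ^ (2 * d)) (by positivity)
    have hε : 0 < min ε0 (1 / 2) := lt_min hε0 (by norm_num)
    refine ⟨min ε0 (1 / 2), hε, (min_le_right _ _).trans_lt (by norm_num),
      fun lam hlam hs hl => ?_, fun hne => (exists_units σ τ hne hε).mono ?_⟩
    · obtain ⟨Γ, Δ, hΓ, hΔ, hdet⟩ := h lam hlam (hs.trans_le (min_le_left _ _))
        (lt_of_le_of_lt (inv_anti₀ hε (min_le_left _ _)) hl)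
      refine ⟨Γ, Δ, hΓ, hΔ, ?_⟩
      have e : (regA Γ * regB Δ - regB Γ * regA Δ) /
          ((2 * Real.pi) ^ (2 * d) * Real.log ‖σ lam‖ * Real.log ‖τ lam‖) - (-1) =
          ((regA Γ * regB Δ - regB Γ * regA Δ) / (Real.log ‖σ lam‖ * Real.log ‖τ lam‖) +
            (2 * Real.pi) ^ (2 * d)) / (2 * Real.pi) ^ (2 * d) := by
        rw [mul_assoc, ← div_div, div_right_comm, add_div, div_self hpi.ne', sub_neg_eq_add]
      rw [e, abs_div, abs_of_pos hpi, div_le_iff₀ hpi]
      exact hdet
    · rintro u ⟨h1, h2, h3, h4, h5⟩
      exact ⟨⟨h1, h2, h3⟩, h4, h5⟩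
  · obtain ⟨ε, hε, h⟩ := exists_smooth A σ
    by_cases hT : A.Transversal σ
    · obtain ⟨ε', hε', h'⟩ := exists_smoothProj hA σ hT
      exact ⟨min ε ε', lt_min hε hε', fun lam hlam hl =>
        ⟨h lam hlam (hl.trans_le (min_le_left _ _)), fun _ =>
          h' lam hlam (hl.trans_le (min_le_right _ _))⟩⟩
    · exact ⟨ε, hε, fun lam hlam hl => ⟨h lam hlam hl, fun h2 => absurd h2 hT⟩⟩

end Pool.Agent.Results.MP_15b3df_nt.TwoPlaceLimit
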