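import Pool.Agent.X321.BL.Units
set_option autoImplicit false

/-!
Beilinson's conjecture on regulators, `i = 1`, `n = 2`, for curves over number fields: a limit
formula for the determinant of `(r + 1) (N - 1)` regulators at two archimedean places.
-/

namespace Pool.Agent.Results.MP_15b3df_nt.UnitCurvesLimit

open Pool.Agent.TH826.MK (symb Torus)

open Pool.Agent.TH826.MH (eqn)

open Pool.Agent.TH265.U

universe u v

/-- There are loops in the complex points of the curve, over `τ` if the first index is `0` and over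
`σ` otherwise, such that the determinant of the matrix of the regulators of the symbols divided by
`((2 π) ^ (r + 1) C |log |τ e|| (log |σ e|) ^ r) ^ p`, `C = r r! (r + 1)! / 2 ^ r`, differs from `1`
by at most `ε`. -/
def AlmostLimit {K : Type u} [Field K] (p r : ℕ) (ζ e : K) (σ τ : K →+* ℂ) (ε : ℝ) : Prop :=
  ∃ Γ : Fin (r + 1) × Fin p → Torus (Opn p r ζ e) 1,
    (∀ t θ x, (Γ t).e θ (cst0 p r ζ e x) = if t.1 = 0 then τ x else σ x) ∧
    |(Matrix.of fun t q => (Γ t).reg (symb (sym p r ζ e q))).det /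
      ((2 * Real.pi) ^ (r + 1) * (r * r.factorial * (r + 1).factorial / 2 ^ r) *
        |Real.log ‖τ e‖| * Real.log ‖σ e‖ ^ r) ^ p - 1| ≤ ε

theorem cnt_eq (r : ℕ) : Pool.Agent.X321.BL.cnt r =
    r * r.factorial * (r + 1).factorial / 2 ^ r := by
  have h : ∀ n : ℕ, ∏ a : Fin n, (((a : ℕ) : ℝ) + 1) * ((a : ℕ) + 2) / 2 =
      n.factorial * (n + 1).factorial / 2 ^ n := by
    intro n
    induction n with
    | zero => simp
    | succ n ih =>
      rw [Fin.prod_univ_castSucc]
      simp only [Fin.val_castSucc, Fin.val_last]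
      rw [ih, Nat.factorial_succ (n + 1), Nat.factorial_succ n]
      push_cast
      rw [pow_succ]
      field_simp
      ring
  unfold Pool.Agent.X321.BL.cnt
  rw [h]
  ring

/-- Let `N = p + 1` and `r ≥ 1`. For all `ε > 0` there is a constant `c > 1` with the following
property. Let `K` be a number field with a primitive `N`-th root of unity `ζ`, let `σ` and `τ` be
complex embeddings of `K` and let `e` be a unit of the ring of integers of `K` with `|σ e| ≥ c` and
`|τ e| ≤ 1 / c`. Then the curve `(1 - y^N) ∏_{i ≤ r} (1 - e^(-i) x) = 1` (of bidegree `(N, r + 1)`,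
genus `r (N - 1)`) has a coordinate ring `A` which is a domain, and it is smooth; the
`(r + 1) (N - 1)` symbols `{(y - ζ^j) / (y - ζ^(j+1)), (x - e^i) / x}`, `0 ≤ j < N - 1`,
`0 ≤ i ≤ r`, in `K_2` of `A[1/x]` are unramified at all discrete valuations of the function field;
and there are `(r + 1) (N - 1)` loops in the complex points, `N - 1` of them over `τ` and
`r (N - 1)` over `σ`, such that the determinant of the regulators of the symbols on the loops,
divided by `((2 π) ^ (r + 1) C |log |τ e|| (log |σ e|) ^ r) ^ (N - 1)`, where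
`C = r r! (r + 1)! / 2 ^ r`, differs from `1` by at most `ε`.
Moreover for every unit `e₀` which is not a root of unity there are `σ` and `τ` such that
`e = e₀^m` satisfies the conditions for all large `m`. -/
theorem result (p r : ℕ) (hr : 1 ≤ r) (ε : ℝ) (hε : 0 < ε) :
    ∃ c : ℝ, 1 < c ∧
      (∀ (K : Type u) [Field K] [NumberField K] (σ τ : K →+* ℂ) (ζ e : K),
        IsPrimitiveRoot ζ (p + 1) → IsIntegral ℤ e → IsIntegral ℤ e⁻¹ →
        c ≤ ‖σ e‖ → ‖τ e‖ * c ≤ 1 →
        eqn (lm r e) (rts p r ζ e) = poly p r e ∧ IsDomain (Crv p r ζ e) ∧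
        Smooth (poly p r e) σ ∧ UnramifiedSymbols.{u, v} p r ζ e ∧
        AlmostLimit p r ζ e σ τ ε) ∧
      ∀ (K : Type u) [Field K] [NumberField K] (e₀ : K), IsIntegral ℤ e₀ → IsIntegral ℤ e₀⁻¹ →
        e₀ ≠ 0 → (∀ n : ℕ, 0 < n → e₀ ^ n ≠ 1) →
        ∃ (σ τ : K →+* ℂ) (M : ℕ), ∀ m ≥ M, c ≤ ‖σ (e₀ ^ m)‖ ∧ ‖τ (e₀ ^ m)‖ * c ≤ 1 := by
  obtain ⟨c1, hc1, hmain, -⟩ := main.{u, v} p r hr
  obtain ⟨c2, hc2, hlim⟩ := Pool.Agent.X321.BL.exists_det_limit.{u} p r hr hε
  refine ⟨max c1 c2, lt_max_of_lt_left hc1, ?_, ?_⟩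
  · intro K _ _ σ τ ζ e hζ he he' hσ hτ
    obtain ⟨h1, h2, h3, h4, -⟩ := hmain K σ τ ζ e hζ he he' ((le_max_left _ _).trans hσ)
      ((mul_le_mul_of_nonneg_left (le_max_left _ _) (norm_nonneg _)).trans hτ)
    obtain ⟨Γ, hΓ, hd⟩ := hlim σ τ ζ e hζ ((le_max_right _ _).trans hσ)
      ((mul_le_mul_of_nonneg_left (le_max_right _ _) (norm_nonneg _)).trans hτ)
    rw [cnt_eq] at hd
    exact ⟨h1, h2, h3, h4, Γ, hΓ, hd⟩
  · intro K _ _ e₀ he he' he0 hne
    exact exists_pow he he' hne he0 _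

end Pool.Agent.Results.MP_15b3df_nt.UnitCurvesLimit
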